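import Pool.Agent.Helper84.T5g.Pair
import Pool.Agent.Helper42.T5.Pairs
import Pool.Agent.Helper37.T5g.OneEvent

/-!
# T5g (MP_12a1af): all pairs from the block statements of `Pair.lean`
-/

set_option autoImplicit false

namespace Pool.Agent.Helper84.T5g

open Finset Pool.Agent.Helper5.ET Pool.Agent.Helper37.T5g Pool.Agent.Helper30.T5g
open Pool.Agent.Helper42.T5.Pr Pool.Agent.Helper42.T5 Pool.Agent.Helper99.T5g

/-! ## the shape -/

theorem PairOK.mono {m : Sq} {E E' : ℕ} {P P' : ℕ → ℕ → Prop}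
    {Ct Ct' : ℕ → ℕ → (Key → ℕ) → ℕ → Prop} (h : PairOK m P Ct E) (hE : E ≤ E')
    (hP : ∀ l' l, P' l' l → P l' l)
    (hC : ∀ l l' w c, Ct' l l' w c → ∃ c', c ≤ c' ∧ Ct l l' w c') : PairOK m P' Ct' E' := by
  obtain ⟨K0, c0, m', h2, h3, h⟩ := h
  refine ⟨K0, c0, m', h2, h3, ?_⟩
  intro l l' hl' hll ha hp K hK hK'
  refine PrLe_mono (fun r _ hw => ?_) le_rfl (h l l' hl' hll ha (hP _ _ hp) K hK hK')
  obtain ⟨c, hc, hlt⟩ := hw
  obtain ⟨c', hcc, hc'⟩ := hC l l' _ c hc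
  refine ⟨c', hc', lt_of_le_of_lt ?_ (lt_of_lt_of_le hlt hcc)⟩
  exact Nat.pow_le_pow_right (by norm_num) (Nat.mul_le_mul_right _ hE)

theorem PairOK.or {m : Sq} {E : ℕ} {P P' : ℕ → ℕ → Prop} {Ct : ℕ → ℕ → (Key → ℕ) → ℕ → Prop}
    (h : PairOK m P Ct E) (h' : PairOK m P' Ct E) :
    PairOK m (fun l' l => P l' l ∨ P' l' l) Ct E := by
  obtain ⟨K0, c0, m1, h2, h3, h⟩ := h
  obtain ⟨K0', c0', m1', h2', h3', h'⟩ := h'
  refine ⟨max K0 K0' + 1, min c0 c0', max m1 m1', lt_min h2 h2', le_max_of_le_left h3, ?_⟩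
  intro l l' hl' hll ha hp K hK hK'
  have hl1 : (1 : ℝ) ≤ (l : ℝ) := by exact_mod_cast (show 1 ≤ l by omega)
  rcases hp with hp | hp
  · refine PrLe_mono (fun w _ hw => hw) ?_ (h l l' (by omega) hll ha hp K hK hK')
    refine mul_le_mul (le_max_left _ _) (Real.exp_le_exp.2 (neg_le_neg ?_))
        (Real.exp_pos _).le (le_max_of_le_left h3)
    exact Real.rpow_le_rpow_of_exponent_le hl1 (min_le_left _ _)
  · refine PrLe_mono (fun w _ hw => hw) ?_ (h' l l' (by omega) hll ha hp K hK hK')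
    refine mul_le_mul (le_max_right _ _) (Real.exp_le_exp.2 (neg_le_neg ?_))
        (Real.exp_pos _).le (le_max_of_le_left h3)
    exact Real.rpow_le_rpow_of_exponent_le hl1 (min_le_right _ _)

theorem Blk.or {P P' : Sq → ℕ → ℕ → ℕ → Prop} {Ct : Sq → ℕ → ℕ → ℕ → (Key → ℕ) → ℕ → Prop}
    (h : Blk P Ct) (h' : Blk P' Ct) : Blk (fun m k l' l => P m k l' l ∨ P' m k l' l) Ct := by
  obtain ⟨E, k0, h⟩ := h
  obtain ⟨E', k0', h'⟩ := h'
  refine ⟨max E E', max k0 k0', fun m hm hk => ?_⟩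
  exact ((h m hm ((le_max_left _ _).trans hk)).mono (le_max_left _ _) (fun _ _ h => h)
    (fun _ _ _ c hc => ⟨c, le_rfl, hc⟩)).or
      ((h' m hm ((le_max_right _ _).trans hk)).mono (le_max_right _ _) (fun _ _ h => h)
        (fun _ _ _ c hc => ⟨c, le_rfl, hc⟩))

theorem Blk.mono {P P' : Sq → ℕ → ℕ → ℕ → Prop} {Ct Ct' : Sq → ℕ → ℕ → ℕ → (Key → ℕ) → ℕ → Prop}
    (h : Blk P Ct) (hP : ∀ m k l' l, P' m k l' l → P m k l' l)
    (hC : ∀ m k l l' w c, Ct' m k l l' w c → ∃ c', c ≤ c' ∧ Ct m k l l' w c') : Blk P' Ct' := by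
  obtain ⟨E, k0, h⟩ := h
  exact ⟨E, k0, fun m hm hk => (h m hm hk).mono le_rfl (fun l' l => hP m m.k l' l)
    (fun l l' w c => hC m m.k l l' w c)⟩

/-- a bound for the number of hits is a bound for the number of representations -/
theorem Blk.rp_of_ht {P : Sq → ℕ → ℕ → ℕ → Prop} (h : Blk P HtC) : Blk P RpC := by
  refine h.mono (fun _ _ _ _ h => h) ?_
  rintro m k l l' w c ⟨n, rfl⟩
  exact ⟨_, Rp_le m k l l' w n, n, rfl⟩

/-- **the route through J5** -/
theorem rpc_of_free {P : Sq → ℕ → ℕ → ℕ → Prop} (hN : ∀ m k l' l, P m k l' l → Near m k l' l)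
    {E0 k0 : ℕ} (hF : ∀ m : Sq, OkF m → k0 ≤ m.k → FreeStmt E0 m) (hC : Blk P CstC)
    (hf : Blk P FreeC) : Blk P RpC := by
  obtain ⟨E, k1, hC⟩ := hC
  obtain ⟨E', k2, hf⟩ := hf
  refine ⟨E0 + E + E' + 1, max k0 (max k1 k2), fun m hm hk => ?_⟩
  have hm0 : k0 ≤ m.k := (le_max_left _ _).trans hk
  have hm1 : k1 ≤ m.k := (le_max_left _ _).trans ((le_max_right _ _).trans hk)
  have hm2 : k2 ≤ m.k := (le_max_right _ _).trans ((le_max_right _ _).trans hk)
  obtain ⟨K0, hF⟩ := hF m hm hm0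
  obtain ⟨K1, c1, m1', a2, a3, hC⟩ := hC m hm hm1
  obtain ⟨K2, c2, m2', b2, b3, hf⟩ := hf m hm hm2
  refine ⟨max K0 (max K1 K2) + 1, min c1 c2, m1' + m2', lt_min a2 b2, by positivity, ?_⟩
  intro l l' hl' hll ha hp K hK hK'
  have h0 : K0 ≤ l' := by omega
  have h1 : K1 ≤ l' := by omega
  have h2 : K2 ≤ l' := by omega
  have hl1 : (1 : ℝ) ≤ (l : ℝ) := by exact_mod_cast (show 1 ≤ l by omega)
  have hA := hC l l' h1 hll ha hp K hK hK'
  have hB := hf l l' h2 hll ha hp K hK hK'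
  refine PrLe_mono (fun r _ hw => ?_) ?_ (PrLe_or hA hB)
  · generalize ext K r = w at hw ⊢
    by_contra hcon
    rw [not_or] at hcon
    obtain ⟨hn1, hn2⟩ := hcon
    push Not at hn1 hn2
    obtain ⟨c, ⟨n, rfl⟩, hlt⟩ := hw
    have hcard := hF l l' h0 hll (hN _ _ _ _ hp) w n (2 ^ (E * m.q 0)) (2 ^ (E' * m.q 0))
      (fun z z' => hn1 _ ⟨n, z, z', rfl⟩)
      (fun T hT hfree => hn2 _ ⟨n, T, hT, hfree, rfl⟩)
    have h5 : Rp m m.k l l' w n ≤ 2 ^ (E0 * m.q 0) * 2 ^ (E * m.q 0) * (2 ^ (E' * m.q 0) + 1) :=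
      (Rp_le m m.k l l' w n).trans hcard
    have h6 : 2 ^ (E0 * m.q 0) * 2 ^ (E * m.q 0) * (2 ^ (E' * m.q 0) + 1) ≤
        2 ^ ((E0 + E + E' + 1) * m.q 0) := by
      have h7 : 2 ^ (E' * m.q 0) + 1 ≤ 2 ^ (E' * m.q 0) * 2 ^ m.q 0 := by
        have h8 : 1 ≤ 2 ^ (E' * m.q 0) := Nat.one_le_two_pow
        have h9 : 2 ≤ 2 ^ m.q 0 := by
          have := hm.q 0
          calc 2 = 2 ^ 1 := rfl
            _ ≤ _ := Nat.pow_le_pow_right (by norm_num) (by omega)
        nlinarith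
      calc 2 ^ (E0 * m.q 0) * 2 ^ (E * m.q 0) * (2 ^ (E' * m.q 0) + 1) ≤
            2 ^ (E0 * m.q 0) * 2 ^ (E * m.q 0) * (2 ^ (E' * m.q 0) * 2 ^ m.q 0) :=
            Nat.mul_le_mul_left _ h7
        _ = _ := by
            rw [← pow_add, ← pow_add, ← pow_add]
            congr 1
            ring
    exact absurd (h5.trans h6) (not_le.2 hlt)
  · have e1 : Real.exp (-((l : ℝ) ^ c1)) ≤ Real.exp (-((l : ℝ) ^ min c1 c2)) :=
      Real.exp_le_exp.2 (neg_le_neg (Real.rpow_le_rpow_of_exponent_le hl1 (min_le_left _ _)))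
    have e2 : Real.exp (-((l : ℝ) ^ c2)) ≤ Real.exp (-((l : ℝ) ^ min c1 c2)) :=
      Real.exp_le_exp.2 (neg_le_neg (Real.rpow_le_rpow_of_exponent_le hl1 (min_le_right _ _)))
    nlinarith [mul_le_mul_of_nonneg_left e1 a3, mul_le_mul_of_nonneg_left e2 b3]

/-! ## all pairs -/

/-- the block statements for the near pairs and the far pairs -/
structure Blocks : Prop where
  far : Blk CaseFar RpC
  bot : Blk CaseBot RpC
  botD : Blk CaseBotD RpC
  botS : Blk CaseBotS RpC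
  stat : Blk CaseStat RpC
  statD : Blk CaseStatD RpC
  statS : Blk CaseStatS RpC
  inj : Blk CaseInj RpC
  two : Blk CaseTwo RpC
  mid : Blk CaseMid RpC
  crude : Blk CaseCrude RpC
  splitInj : Blk CaseSplitInj RpC
  splitTwo : Blk CaseSplitTwo RpC
  splitMid : Blk CaseSplitMid RpC
  splitCrude : Blk CaseSplitCrude RpC

/-- every near pair without SPLIT is in one of the cases -/
theorem cover_same {m : Sq} {k l' l : ℕ} (hN : Near m k l' l) (hS : Same m k l' l)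
    (hB : SameB m k l' l ∨ Drop m k l' l) :
    CaseBot m k l' l ∨ CaseBotD m k l' l ∨ CaseStat m k l' l ∨ CaseStatD m k l' l ∨
      CaseInj m k l' l ∨ CaseTwo m k l' l ∨ CaseMid m k l' l ∨ CaseCrude m k l' l := by
  classical
  have hbb : max (bL m k l') (bL m k l) = bL m k l := by
    rcases hB with h | h
    · unfold SameB at h
      rw [h, max_self]
    · unfold Drop at h
      rw [max_eq_right (by omega)]
  by_cases hex : ∃ u, Cf m k l' l u
  · have hu := Nat.find_spec hex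
    have hmin : ∀ v < Nat.find hex, ¬ Cf m k l' l v := fun v hv => Nat.find_min hex hv
    have hfin : FinCf m k l' l (Nat.find hex) := ⟨hu, hmin⟩
    have hge : bL m k l ≤ Nat.find hex := by
      have := hu.1
      rwa [hbb] at this
    rcases Nat.eq_or_lt_of_le hge with he | hlt
    · have hfin' : FinCf m k l' l (bL m k l) := by
        rw [he]
        exact hfin
      rcases hB with h | h
      · exact Or.inl ⟨hN, hS, h, hfin'⟩
      · exact Or.inr (Or.inl ⟨hN, hS, h, hfin'⟩)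
    · rcases hB with h | h
      · exact Or.inr (Or.inr (Or.inl ⟨hN, hS, h, _, hlt, hfin⟩))
      · exact Or.inr (Or.inr (Or.inr (Or.inl ⟨hN, hS, h, _, hlt, hfin⟩)))
  · push Not at hex
    refine Or.inr (Or.inr (Or.inr (Or.inr ?_)))
    by_cases h1 : l ≤ ef m k l' 0
    · exact Or.inl ⟨⟨hN, hex⟩, hS, h1⟩
    · by_cases h2 : 20 * (l - l') < 7 * SS m (sL m k l)
      · exact Or.inr (Or.inl ⟨hN, hS, by omega, h2⟩)
      · by_cases h3 : l - l' < 200 * SS m (sL m k l)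
        · exact Or.inr (Or.inr (Or.inl ⟨hN, hS, by omega, h3⟩))
        · exact Or.inr (Or.inr (Or.inr ⟨hN, hS, by omega⟩))

/-- every near pair with a SPLIT is in one of the cases -/
theorem cover_split {m : Sq} {k l' l : ℕ} (hN : Near m k l' l) (hS : Split m k l' l) :
    CaseBotS m k l' l ∨ CaseStatS m k l' l ∨ CaseSplitInj m k l' l ∨ CaseSplitTwo m k l' l ∨
      CaseSplitMid m k l' l ∨ CaseSplitCrude m k l' l := by
  classical
  have hbb : max (bL m k l') (bL m k l) = bL m k l := by rw [hS.2, max_self]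
  by_cases hex : ∃ u, Cf m k l' l u
  · have hu := Nat.find_spec hex
    have hmin : ∀ v < Nat.find hex, ¬ Cf m k l' l v := fun v hv => Nat.find_min hex hv
    have hfin : FinCf m k l' l (Nat.find hex) := ⟨hu, hmin⟩
    have hge : bL m k l ≤ Nat.find hex := by
      have := hu.1
      rwa [hbb] at this
    rcases Nat.eq_or_lt_of_le hge with he | hlt
    · refine Or.inl ⟨hN, hS, ?_⟩
      rw [he]
      exact hfin
    · exact Or.inr (Or.inl ⟨hN, hS, _, hlt, hfin⟩)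
  · push Not at hex
    refine Or.inr (Or.inr ?_)
    by_cases h1 : l ≤ ef m k l' 0
    · exact Or.inl ⟨⟨hN, hex⟩, hS, h1⟩
    · by_cases h2 : l - l' < 8 * SS m (sL m k l')
      · exact Or.inr (Or.inl ⟨hN, hS, by omega, h2⟩)
      · by_cases h3 : l - l' < 200 * SS m (sL m k l)
        · exact Or.inr (Or.inr (Or.inl ⟨hN, hS, by omega, h3⟩))
        · exact Or.inr (Or.inr (Or.inr ⟨hN, hS, by omega⟩))

/-- **all pairs** -/
theorem pair_all (h : Blocks) : Blk (fun _ _ _ _ => True) RpC := by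
  obtain ⟨E, k0, hall⟩ := ((((h.bot.or (h.botD.or (h.stat.or (h.statD.or
    (h.inj.or (h.two.or (h.mid.or h.crude)))))))).or
    (h.botS.or (h.statS.or (h.splitInj.or (h.splitTwo.or
      (h.splitMid.or h.splitCrude)))))).or h.far)
  refine ⟨E, k0, fun m hm hk => ?_⟩
  obtain ⟨K1, hev⟩ := Pool.Agent.Helper37.T5g.oneEvent m hm.toOk
  obtain ⟨K0, c0, m', b2, b3, hp⟩ := hall m hm hk
  refine ⟨max K0 K1, c0, m', b2, b3, ?_⟩
  intro l l' hl' hll ha _ K hK hK'
  refine hp l l' ((le_max_left _ _).trans hl') hll ha ?_ K hK hK'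
  by_cases hN : Near m m.k l' l
  · left
    rcases hev l l' ((le_max_right _ _).trans hl') hll hN with h1 | h1 | h1
    · exact Or.inl (cover_same hN h1.1 (Or.inl h1.2))
    · exact Or.inl (cover_same hN h1.1 (Or.inr h1.2))
    · exact Or.inr (cover_split hN h1)
  · exact Or.inr hN

end Pool.Agent.Helper84.T5g
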